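import Mathlib
import Pool.Agent.N519.WreathIdem

/-!
# `ℚ[G]` is semiprimitive for the generic countable group `G` (MP_146d92_al)
-/

namespace Pool.Agent.Results.MP_146d92_al.Semiprimitive

open MonoidAlgebra Topology

/-- `m : ℕ × ℕ → ℕ` is a group operation on `ℕ`. -/
def IsGroupOp (m : ℕ × ℕ → ℕ) : Prop :=
  (∀ a b c, m (m (a, b), c) = m (a, m (b, c))) ∧
    ∃ e, (∀ a, m (e, a) = a ∧ m (a, e) = a) ∧ ∀ a, ∃ b, m (b, a) = e ∧ m (a, b) = e

/-- The space `𝒢` of all group operations on `ℕ`, with the topology inherited from the product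
space `ℕ^(ℕ × ℕ)` of discrete spaces. -/
abbrev GroupOps : Type := {m : ℕ × ℕ → ℕ // IsGroupOp m}

/-- The set `ℕ`, to be equipped with the operation `m`. -/
def Carrier (_m : GroupOps) : Type := ℕ

/-- The group `(ℕ, m)`. -/
noncomputable instance instGroup (m : GroupOps) : Group (Carrier m) where
  mul a b := m.1 (a, b)
  mul_assoc a b c := m.2.1 a b c
  one := m.2.2.choose
  one_mul a := (m.2.2.choose_spec.1 a).1
  mul_one a := (m.2.2.choose_spec.1 a).2
  inv a := (m.2.2.choose_spec.2 a).choose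
  inv_mul_cancel a := (m.2.2.choose_spec.2 a).choose_spec.1

theorem mul_eq (m : GroupOps) (a b : Carrier m) : a * b = m.1 (a, b) := rfl

/-- Product of finitely supported functions with respect to `m`. -/
noncomputable def mulF (m : ℕ × ℕ → ℕ) (a b : ℕ →₀ ℚ) : ℕ →₀ ℚ :=
  a.sum fun x r => b.sum fun y s => Finsupp.single (m (x, y)) (r * s)

theorem coeff_mul' (m : GroupOps) (x y : MonoidAlgebra ℚ (Carrier m)) :
    (x * y).coeff = mulF m.1 x.coeff y.coeff := by
  rw [MonoidAlgebra.mul_def]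
  simp only [coeff_finsuppSum, coeff_single]
  rfl

theorem mulF_congr {m m' : ℕ × ℕ → ℕ} {a b : ℕ →₀ ℚ}
    (h : ∀ x ∈ a.support, ∀ y ∈ b.support, m (x, y) = m' (x, y)) : mulF m a b = mulF m' a b := by
  unfold mulF
  refine Finsupp.sum_congr fun x hx => Finsupp.sum_congr fun y hy => ?_
  rw [h x hx y hy]

/-- Basic neighbourhoods. -/
def nb (m₀ : GroupOps) (P : Finset (ℕ × ℕ)) : Set GroupOps := {m | ∀ p ∈ P, m.1 p = m₀.1 p}

theorem isOpen_nb (m₀ : GroupOps) (P : Finset (ℕ × ℕ)) : IsOpen (nb m₀ P) := by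
  have : nb m₀ P = ⋂ p ∈ P, {m : GroupOps | m.1 p = m₀.1 p} := by
    ext m; simp [nb]
  rw [this]
  refine isOpen_biInter_finset fun p _ => ?_
  have hc : Continuous fun m : GroupOps => m.1 p := (continuous_apply p).comp continuous_subtype_val
  exact (isOpen_discrete ({m₀.1 p} : Set ℕ)).preimage hc

theorem mem_nb (m₀ : GroupOps) (P : Finset (ℕ × ℕ)) : m₀ ∈ nb m₀ P := fun _ _ => rfl

theorem exists_nb {V : Set GroupOps} (hV : IsOpen V) {m₀ : GroupOps} (hm : m₀ ∈ V) :
    ∃ P, nb m₀ P ⊆ V := by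
  obtain ⟨W, hW, rfl⟩ := isOpen_induced_iff.1 hV
  obtain ⟨I, u, hu, hI⟩ := isOpen_pi_iff.1 hW m₀.1 hm
  refine ⟨I, fun m hm' => hI ?_⟩
  intro p hp
  have := hm' p hp
  change m.1 p ∈ u p
  rw [this]
  exact (hu p hp).2

/-- The open dense sets. -/
def U (α : ℕ →₀ ℚ) : Set GroupOps :=
  {m | ∃ β γ : MonoidAlgebra ℚ (Carrier m), γ ≠ 0 ∧
    β * (ofCoeff α : MonoidAlgebra ℚ (Carrier m)) * γ = γ}

theorem isOpen_U (α : ℕ →₀ ℚ) : IsOpen (U α) := by
  classical
  rw [isOpen_iff_forall_mem_open]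
  rintro m₀ ⟨β, γ, hγ, h⟩
  set b : ℕ →₀ ℚ := β.coeff with hb
  set c : ℕ →₀ ℚ := γ.coeff with hc
  refine ⟨nb m₀ ((b.support ×ˢ α.support) ∪ ((mulF m₀.1 b α).support ×ˢ c.support)), ?_,
    isOpen_nb _ _, mem_nb _ _⟩
  intro m hm
  refine ⟨ofCoeff b, ofCoeff c, ?_, ?_⟩
  · intro h0
    apply hγ
    have : c = 0 := by
      have := congrArg MonoidAlgebra.coeff h0
      exact this
    exact MonoidAlgebra.ext this
  · apply MonoidAlgebra.ext
    have h1 : mulF m₀.1 (mulF m₀.1 b α) c = c := by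
      have := congrArg MonoidAlgebra.coeff h
      rw [coeff_mul', coeff_mul'] at this
      exact this
    rw [coeff_mul', coeff_mul']
    change mulF m.1 (mulF m.1 b α) c = c
    have e1 : mulF m.1 b α = mulF m₀.1 b α := by
      refine mulF_congr fun x hx y hy => hm _ ?_
      exact Finset.mem_union_left _ (Finset.mem_product.2 ⟨hx, hy⟩)
    have e2 : mulF m.1 (mulF m₀.1 b α) c = mulF m₀.1 (mulF m₀.1 b α) c := by
      refine mulF_congr fun x hx y hy => hm _ ?_
      exact Finset.mem_union_right _ (Finset.mem_product.2 ⟨hx, hy⟩)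
    rw [e1, e2, h1]

/-- Transport of structure. -/
theorem exists_transport (m₀ : GroupOps) (H : Type) [Group H] [Countable H]
    (ι : Carrier m₀ →* H) (hι : Function.Injective ι) (K : Finset ℕ) :
    ∃ (m : GroupOps) (F : Carrier m ≃* H), (∀ x ∈ K, F x = ι x) ∧
      ∀ a b : ℕ, a ∈ K → b ∈ K → m₀.1 (a, b) ∈ K → m.1 (a, b) = m₀.1 (a, b) := by
  have hinf : Infinite H := by
    have : Infinite (Carrier m₀) := inferInstanceAs (Infinite ℕ)
    exact Infinite.of_injective ι hι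
  obtain ⟨f, hf⟩ : ∃ f : ℕ ≃ H, ∀ x : (K : Set ℕ), f x = ι (x : ℕ) := by
    refine Cardinal.extend_function_of_lt (s := (K : Set ℕ))
      (⟨fun x => ι (x : ℕ), fun x y hxy => Subtype.ext (hι hxy)⟩) ?_ ?_
    · rw [Cardinal.mk_nat]
      exact Cardinal.lt_aleph0_iff_finite.2 (Finset.finite_toSet K)
    · exact ⟨(nonempty_denumerable H).some.eqv.symm⟩
  let m : ℕ × ℕ → ℕ := fun p => f.symm (f p.1 * f p.2)
  have hm : IsGroupOp m := by
    refine ⟨fun a b c => ?_, f.symm 1, fun a => ⟨?_, ?_⟩, fun a => ⟨f.symm (f a)⁻¹, ?_, ?_⟩⟩ <;>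
      simp [m, mul_assoc]
  let F : Carrier ⟨m, hm⟩ ≃* H := MulEquiv.mk' f (fun a b => f.apply_symm_apply _)
  refine ⟨⟨m, hm⟩, F, ?_, ?_⟩
  · intro x hx
    exact hf ⟨x, hx⟩
  · intro a b ha hb hab
    change f.symm (f a * f b) = _
    rw [Equiv.symm_apply_eq]
    have e1 := hf ⟨a, ha⟩
    have e2 := hf ⟨b, hb⟩
    have e3 := hf ⟨_, hab⟩
    change f a = _ at e1
    change f b = _ at e2
    change f (m₀.1 (a, b)) = _ at e3
    rw [e1, e2, e3]
    exact (ι.map_mul (a : Carrier m₀) (b : Carrier m₀)).symm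

theorem dense_U (α : ℕ →₀ ℚ) (hα : α ≠ 0) : Dense (U α) := by
  classical
  rw [dense_iff_inter_open]
  rintro V hV ⟨m₀, hm₀⟩
  obtain ⟨P, hP⟩ := exists_nb hV hm₀
  have hcC : Countable (Carrier m₀) := inferInstanceAs (Countable ℕ)
  have hcB : Countable (Pool.Agent.N519.WreathIdem.Base (Carrier m₀)) :=
    inferInstanceAs (Countable (Carrier m₀ →₀ ZMod 2))
  have hcW : Countable (Pool.Agent.N519.WreathIdem.Wr (Carrier m₀)) :=
    SemidirectProduct.equivProd.injective.countable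
  obtain ⟨m, F, hF, hm⟩ := exists_transport m₀ (Pool.Agent.N519.WreathIdem.Wr (Carrier m₀))
    SemidirectProduct.inr SemidirectProduct.inr_injective
    (P.image Prod.fst ∪ P.image Prod.snd ∪ P.image m₀.1 ∪ α.support)
  refine ⟨m, hP ?_, ?_⟩
  · intro p hp
    refine hm p.1 p.2 ?_ ?_ ?_
    · simp only [Finset.mem_union, Finset.mem_image]
      exact Or.inl (Or.inl (Or.inl ⟨p, hp, rfl⟩))
    · simp only [Finset.mem_union, Finset.mem_image]
      exact Or.inl (Or.inl (Or.inr ⟨p, hp, rfl⟩))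
    · simp only [Finset.mem_union, Finset.mem_image]
      exact Or.inl (Or.inr ⟨p, hp, rfl⟩)
  · obtain ⟨β, γ, hγ, h⟩ := Pool.Agent.N519.WreathIdem.exists_beta_gamma
      (ofCoeff α : MonoidAlgebra ℚ (Carrier m₀)) (by
        intro h0; exact hα (by have := congrArg MonoidAlgebra.coeff h0; exact this))
    let E : MonoidAlgebra ℚ (Carrier m) ≃+* MonoidAlgebra ℚ (Pool.Agent.N519.WreathIdem.Wr (Carrier m₀)) :=
      mapDomainRingEquiv ℚ F
    have hE : E (ofCoeff α) = Pool.Agent.N519.WreathIdem.I (ofCoeff α : MonoidAlgebra ℚ (Carrier m₀)) := by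
      apply MonoidAlgebra.ext
      change Finsupp.mapDomain F α = Finsupp.mapDomain _ α
      refine Finsupp.mapDomain_congr fun x hx => ?_
      exact hF x (Finset.mem_union_right _ hx)
    refine ⟨E.symm β, E.symm γ, ?_, ?_⟩
    · intro h0
      exact hγ (by simpa using h0)
    · apply E.injective
      rw [map_mul, map_mul, E.apply_symm_apply, E.apply_symm_apply, hE, h]

/-- The set of group operations on `ℕ` whose rational group algebra is semiprimitive is comeager
in the Polish space of all group operations. -/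
theorem result : {m : GroupOps | Ring.jacobson (MonoidAlgebra ℚ (Carrier m)) = ⊥} ∈
    residual GroupOps := by
  have h1 : (⋂ α : {α : ℕ →₀ ℚ // α ≠ 0}, U α.1) ∈ residual GroupOps := by
    rw [countable_iInter_mem]
    intro α
    exact residual_of_dense_open (isOpen_U _) (dense_U _ α.2)
  refine Filter.mem_of_superset h1 ?_
  intro m hm
  rw [Set.mem_iInter] at hm
  change Ring.jacobson (MonoidAlgebra ℚ (Carrier m)) = ⊥
  rw [eq_bot_iff]
  intro α hα
  rw [← Ideal.jacobson_bot, Ideal.mem_jacobson_iff] at hα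
  rw [Ideal.mem_bot]
  by_contra hne
  have hne' : α.coeff ≠ 0 := fun h => hne (MonoidAlgebra.ext h)
  obtain ⟨β, γ, hγ, h⟩ := hm ⟨α.coeff, hne'⟩
  obtain ⟨z, hz⟩ := hα (-β)
  rw [Ideal.mem_bot] at hz
  apply hγ
  have e1 : (ofCoeff α.coeff : MonoidAlgebra ℚ (Carrier m)) = α := rfl
  rw [e1] at h
  have e2 : z * (1 - β * α) = 1 := by
    have : z * (1 - β * α) - 1 = z * -β * α + z - 1 := by noncomm_ring
    rw [← sub_eq_zero, this, hz]
  calc γ = (z * (1 - β * α)) * γ := by rw [e2, one_mul]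
    _ = z * (γ - β * α * γ) := by noncomm_ring
    _ = 0 := by rw [h, sub_self, mul_zero]

end Pool.Agent.Results.MP_146d92_al.Semiprimitive
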